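import Pool.Agent.PQP.StmtsT

set_option autoImplicit false

open scoped Topology
open Filter Set

namespace Pool.Agent.PQP.H52

/-- the local statement at a zero -/
theorem wnd_loc (x y α r : ℝ → ℝ) (hα : Continuous α)
    (hr : ∀ φ, 0 < r φ ∧ x φ = r φ * Real.cos (α φ) ∧ y φ = r φ * Real.sin (α φ))
    (hy' : ∀ φ, y φ = 0 → ∃ y' : ℝ, HasDerivAt y y' φ ∧ x φ * y' < 0)
    (p : ℝ) (k : ℤ) (hp : α p = k * Real.pi) :
    (∀ᶠ φ in 𝓝[>] p, α φ < k * Real.pi) ∧ ∀ᶠ φ in 𝓝[<] p, k * Real.pi < α φ := by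
  have hsk : Real.sin (k * Real.pi) = 0 := Real.sin_int_mul_pi k
  have hy0 : y p = 0 := by rw [(hr p).2.2, hp, hsk, mul_zero]
  obtain ⟨y', hd, hxy⟩ := hy' p hy0
  set c : ℝ := Real.cos (k * Real.pi) with hc
  have hcy : c * y' < 0 := by
    rw [(hr p).2.1, hp, mul_assoc] at hxy
    by_contra hcon
    push Not at hcon
    have := mul_nonneg (hr p).1.le hcon
    linarith
  have hf : HasDerivAt (fun φ => c * y φ) (c * y') p := hd.const_mul c
  have hsl := hasDerivAt_iff_tendsto_slope.mp hf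
  have hneg : ∀ᶠ φ in 𝓝[≠] p, slope (fun φ => c * y φ) p φ < 0 := hsl.eventually (gt_mem_nhds hcy)
  have hsl0 : ∀ φ, slope (fun φ => c * y φ) p φ = (φ - p)⁻¹ * (c * y φ) := by
    intro φ
    rw [slope_def_field, hy0]
    ring
  have hnear : ∀ᶠ φ in 𝓝 p, |α φ - k * Real.pi| < Real.pi := by
    have h1 : Tendsto (fun φ => |α φ - k * Real.pi|) (𝓝 p) (𝓝 |α p - k * Real.pi|) :=
      ((hα.sub continuous_const).abs).tendsto p
    rw [hp, sub_self, abs_zero] at h1
    exact h1.eventually (gt_mem_nhds Real.pi_pos)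
  have hsin : ∀ φ, Real.sin (α φ - k * Real.pi) * r φ = c * y φ := by
    intro φ
    rw [Real.sin_sub, hsk, mul_zero, sub_zero, (hr φ).2.2]
    ring
  constructor
  · have h1 : ∀ᶠ φ in 𝓝[>] p, slope (fun φ => c * y φ) p φ < 0 :=
      hneg.filter_mono (nhdsWithin_mono _ fun z (hz : p < z) => ne_of_gt hz)
    have h2 : ∀ᶠ φ in 𝓝[>] p, |α φ - k * Real.pi| < Real.pi := hnear.filter_mono nhdsWithin_le_nhds
    filter_upwards [h1, h2, self_mem_nhdsWithin] with φ h3 h4 h5
    have h6 : p < φ := h5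
    rw [hsl0] at h3
    have h7 : c * y φ < 0 := by
      by_contra hcon
      push Not at hcon
      have := mul_nonneg (inv_nonneg.mpr (sub_pos.mpr h6).le) hcon
      linarith
    by_contra hcon
    push Not at hcon
    rw [abs_lt] at h4
    have h8 : 0 ≤ Real.sin (α φ - k * Real.pi) :=
      Real.sin_nonneg_of_nonneg_of_le_pi (sub_nonneg.mpr hcon) h4.2.le
    have h9 := mul_nonneg h8 (hr φ).1.le
    rw [hsin] at h9
    linarith
  · have h1 : ∀ᶠ φ in 𝓝[<] p, slope (fun φ => c * y φ) p φ < 0 :=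
      hneg.filter_mono (nhdsWithin_mono _ fun z (hz : z < p) => ne_of_lt hz)
    have h2 : ∀ᶠ φ in 𝓝[<] p, |α φ - k * Real.pi| < Real.pi := hnear.filter_mono nhdsWithin_le_nhds
    filter_upwards [h1, h2, self_mem_nhdsWithin] with φ h3 h4 h5
    have h6 : φ < p := h5
    rw [hsl0] at h3
    have h7 : 0 < c * y φ := by
      by_contra hcon
      push Not at hcon
      have := mul_nonneg_of_nonpos_of_nonpos (inv_nonpos.mpr (sub_neg.mpr h6).le) hcon
      linarith
    by_contra hcon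
    push Not at hcon
    rw [abs_lt] at h4
    have h8 : Real.sin (α φ - k * Real.pi) ≤ 0 :=
      Real.sin_nonpos_of_nonpos_of_neg_pi_le (sub_nonpos.mpr hcon) h4.1.le
    have h9 := mul_nonneg (neg_nonneg.mpr h8) (hr φ).1.le
    rw [neg_mul, hsin] at h9
    linarith

theorem wnd : WndStmt := by
  intro x y α r hα _ _ hr hy' φ₀ φ₁ h01 h0 h1
  have hzero : ∀ φ, y φ = 0 → ∃ k : ℤ, α φ = k * Real.pi := by
    intro φ h
    rw [(hr φ).2.2] at h
    rcases mul_eq_zero.mp h with h2 | h2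
    · exact absurd h2 (hr φ).1.ne'
    · obtain ⟨n, hn⟩ := Real.sin_eq_zero_iff.mp h2
      exact ⟨n, hn.symm⟩
  obtain ⟨k, hk⟩ := hzero φ₀ h0
  obtain ⟨m, hm⟩ := hzero φ₁ h1
  have hlt : α φ₁ < k * Real.pi := by
    by_contra hcon
    push Not at hcon
    -- just to the right of `φ₀`
    obtain ⟨a, ha1, ha2⟩ : ∃ a, φ₀ < a ∧ ∀ φ, φ₀ < φ → φ < a → α φ < k * Real.pi := by
      have h2 := (wnd_loc x y α r hα hr hy' φ₀ k hk).1
      obtain ⟨a, ha, hb⟩ := (mem_nhdsGT_iff_exists_Ioo_subset).mp h2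
      exact ⟨a, ha, fun φ h3 h4 => hb ⟨h3, h4⟩⟩
    set b : ℝ := min ((φ₀ + a) / 2) φ₁ with hb
    have hb0 : φ₀ < b := lt_min (by linarith) h01
    have hba : b < a := lt_of_le_of_lt (min_le_left _ _) (by linarith)
    have hb1 : b ≤ φ₁ := min_le_right _ _
    have hαb : α b < k * Real.pi := ha2 b hb0 hba
    let S : Set ℝ := {φ | φ ∈ Icc b φ₁ ∧ k * Real.pi ≤ α φ}
    have hSc : IsCompact S := by
      have h3 : S = Icc b φ₁ ∩ {φ | k * Real.pi ≤ α φ} := rfl
      rw [h3]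
      exact isCompact_Icc.inter_right (isClosed_le continuous_const hα)
    have hSn : S.Nonempty := ⟨φ₁, ⟨hb1, le_refl _⟩, hcon⟩
    have hq := hSc.sInf_mem hSn
    set q : ℝ := sInf S with hqd
    have hlow : ∀ φ, b ≤ φ → φ < q → α φ < k * Real.pi := by
      intro φ h3 h4
      by_contra h5
      push Not at h5
      have h6 : φ ∈ S := ⟨⟨h3, le_trans h4.le hq.1.2⟩, h5⟩
      exact absurd (csInf_le hSc.bddBelow h6) (not_le.mpr h4)
    have hbq : b < q := by
      rcases lt_or_eq_of_le hq.1.1 with h3 | h3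
      · exact h3
      · exfalso
        have h4 := hq.2
        rw [← h3] at h4
        linarith
    have hqk : α q = k * Real.pi := by
      apply le_antisymm _ hq.2
      have h3 : Tendsto α (𝓝[<] q) (𝓝 (α q)) := (hα.tendsto q).mono_left nhdsWithin_le_nhds
      refine le_of_tendsto h3 ?_
      filter_upwards [Ioo_mem_nhdsLT hbq] with φ h4
      exact (hlow φ h4.1.le h4.2).le
    have h5 := (wnd_loc x y α r hα hr hy' q k hqk).2
    obtain ⟨φ, h6, h7⟩ := (h5.and (Ioo_mem_nhdsLT hbq)).exists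
    have h8 := hlow φ h7.1.le h7.2
    linarith
  rw [hm] at hlt ⊢
  rw [hk]
  have h2 : (m : ℝ) < k := lt_of_mul_lt_mul_right hlt Real.pi_pos.le
  have h3 : m < k := by exact_mod_cast h2
  have h4 : (m : ℝ) + 1 ≤ k := by exact_mod_cast h3
  have h5 := mul_le_mul_of_nonneg_right h4 Real.pi_pos.le
  linarith

end Pool.Agent.PQP.H52
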